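import Pool.Agent.H284.EM.Main

/-!
# Transitive symmetric `q`-shifts are entropy minimal

For every `M` and every sequence `α` over `{0, …, M}` (in particular for the quasi-greedy expansion
`α(q)` of `1` in every base `q ∈ (1, M + 1]`), the shift
`V_α = {x | ᾱ ≤ σⁿ x ≤ α for all n}` is entropy minimal as soon as it is transitive.
-/

set_option autoImplicit false

open Filter Topology

namespace Pool.Agent.Results.MP_0ad9bc_an.TransitiveMinimal

/-- the lexicographic order on sequences over `{0, …, M}` -/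
def LexLe {M : ℕ} (x y : ℕ → Fin (M + 1)) : Prop :=
  x = y ∨ ∃ n, (∀ i < n, x i = y i) ∧ x n < y n

/-- the symmetric shift given by a sequence `α`: all `x` with `ᾱ ≤ σⁿ x ≤ α` for all `n ≥ 0`,
where `ᾱ i = M - α i` -/
def VShift {M : ℕ} (α : ℕ → Fin (M + 1)) : Set (ℕ → Fin (M + 1)) :=
  {x | ∀ n, LexLe (fun i => (α i).rev) (fun i => x (n + i)) ∧ LexLe (fun i => x (n + i)) α}

/-- the word `w` occurs in a point of `Y` -/
def Occurs {M : ℕ} (Y : Set (ℕ → Fin (M + 1))) (w : List (Fin (M + 1))) : Prop :=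
  ∃ x ∈ Y, ∃ k, ∀ (i : ℕ) (h : i < w.length), x (k + i) = w[i]

/-- `Y` is transitive: for occurring words `u`, `w` some word `u v w` occurs -/
def Transitive {M : ℕ} (Y : Set (ℕ → Fin (M + 1))) : Prop :=
  ∀ u w, Occurs Y u → Occurs Y w → ∃ v, Occurs Y (u ++ v ++ w)

/-- `h` is the topological entropy of `Y`: `h = lim (1/n) log #Bₙ(Y)` -/
def HasEntropy {M : ℕ} (Y : Set (ℕ → Fin (M + 1))) (h : ℝ) : Prop :=
  Tendsto (fun n : ℕ =>
    Real.log ({w : List (Fin (M + 1)) | w.length = n ∧ Occurs Y w}.ncard : ℝ) / n) atTop (𝓝 h)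

/-- subshifts: nonempty, closed, shift-invariant sets of sequences -/
def IsSubshift {M : ℕ} (X : Set (ℕ → Fin (M + 1))) : Prop :=
  X.Nonempty ∧ IsClosed X ∧ ∀ x ∈ X, (fun n => x (n + 1)) ∈ X

/-- entropy minimality: every proper subshift has smaller entropy -/
def EntropyMinimal {M : ℕ} (Y : Set (ℕ → Fin (M + 1))) : Prop :=
  ∀ X, IsSubshift X → X ⊆ Y → X ≠ Y → ∃ hX hY : ℝ, HasEntropy X hX ∧ HasEntropy Y hY ∧ hX < hY

open Pool.Agent.H284.EM in
/-- **Q1, positive answer.** -/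
theorem result (M : ℕ) (α : ℕ → Fin (M + 1)) (h : Transitive (VShift α)) :
    EntropyMinimal (VShift α) := by
  intro X hX hsub hne
  obtain ⟨x0, hx0⟩ := hX.1
  obtain ⟨β, hβ, hβV⟩ := V_eq (α := α) ⟨x0, hsub hx0⟩
  have hV : VShift α = V β := hβV
  clear hβV
  generalize VShift α = Y at *
  subst hV
  have hinv : ∀ x ∈ X, dr 1 x ∈ X := by
    intro x hx
    have h1 := hX.2.2 x hx
    have h2 : dr 1 x = fun n => x (n + 1) := by
      funext n
      simp only [dr, Nat.add_comm 1 n]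
    rw [h2]
    exact h1
  have hocc : ∀ w, Occurs (V β) w ↔ La β w := fun w => occ_iff (V_inv β)
  have hoccX : ∀ w, Occurs X w ↔ LX X w := fun w => occ_iff hinv
  have htr : Tr β := by
    intro u w hu hw
    obtain ⟨v, hv⟩ := h u w ((hocc u).2 hu) ((hocc w).2 hw)
    exact ⟨v, (hocc _).1 hv⟩
  obtain ⟨hx, hy, h1, h2, h3⟩ := entropy_minimal hβ htr hX.2.1 hX.1 hinv hsub hne
  refine ⟨hx, hy, ?_, ?_, h3⟩
  · refine h1.congr fun n => ?_
    rw [ncard_eq hoccX n]
  · refine h2.congr fun n => ?_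
    rw [ncard_eq hocc n]

/-- `α` is the quasi-greedy expansion of `1` in base `q` -/
def IsQuasiGreedy {M : ℕ} (q : ℝ) (α : ℕ → Fin (M + 1)) : Prop :=
  (∀ N, ∃ n ≥ N, α n ≠ 0) ∧ HasSum (fun i => (α i : ℝ) / q ^ (i + 1)) 1 ∧
    ∀ β : ℕ → Fin (M + 1), (∀ N, ∃ n ≥ N, β n ≠ 0) →
      HasSum (fun i => (β i : ℝ) / q ^ (i + 1)) 1 → LexLe β α

/-- the special case of the quasi-greedy expansion, in the words of the question -/
theorem quasi_greedy (M : ℕ) (_hM : 1 ≤ M) (q : ℝ) (_h1 : 1 < q) (_h2 : q ≤ M + 1)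
    (α : ℕ → Fin (M + 1)) (_hα : IsQuasiGreedy q α) (h : Transitive (VShift α)) :
    EntropyMinimal (VShift α) := result M α h

end Pool.Agent.Results.MP_0ad9bc_an.TransitiveMinimal
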